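import Pool.Agent.Helper12_UNF.Stmts2

set_option autoImplicit false

/-!
# Squad UNF, module GAU: the gauge lemma
-/

namespace Unf

namespace H9

/-- The gauge at the start of the edge `r`, with the end of the curve as `r = N + 1`. -/
def gw {N : ℕ} {Q : Type} (γ : Fin N → ℕ → Q) (δ : Fin N → Q) (i : Fin N) (r : ℕ) : Q :=
  if r = 0 then δ i else if r = N + 1 then δ i else γ i (r - 1)

theorem vst_eq {N : ℕ} {Q : Type} (γ : Fin N → ℕ → Q) (δ : Fin N → Q) (i : Fin N)
    (j : Fin (N + 1)) : vst γ δ i j = gw γ δ i j.1 := by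
  unfold vst gw
  by_cases h : j.1 = 0
  · simp [h]
  · have : j.1 ≠ N + 1 := by have := j.2; omega
    simp [h, this]

theorem ven_eq {N : ℕ} {Q : Type} (γ : Fin N → ℕ → Q) (δ : Fin N → Q) (i : Fin N)
    (j : Fin (N + 1)) : ven γ δ i j = gw γ δ i (j.1 + 1) := by
  unfold ven gw
  by_cases h : j.1 = N
  · simp [h]
  · simp [h]

/-- The gauge relation. -/
def Gg {N : ℕ} {Q : Type} [Group Q] (γ : Fin N → ℕ → Q) (δ : Fin N → Q)
    (φ φ' : FreeGroup (Xg N) →* Q) : Prop :=
  (∀ i j, φ' (eg i j) = (vst γ δ i j)⁻¹ * φ (eg i j) * ven γ δ i j) ∧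
    (∀ i, φ' (hg i) = (δ i)⁻¹ * φ (hg i))

theorem take_gauge {N : ℕ} {Q : Type} [Group Q] {γ : Fin N → ℕ → Q} {δ : Fin N → Q}
    {φ φ' : FreeGroup (Xg N) →* Q} (H : Gg γ δ φ φ') (i : Fin N) (r : ℕ) (hr : r ≤ N + 1) :
    φ' ((((List.finRange (N + 1)).take r).map (eg i)).prod) =
      (δ i)⁻¹ * φ ((((List.finRange (N + 1)).take r).map (eg i)).prod) * gw γ δ i r := by
  induction r with
  | zero => simp [gw]
  | succ r ih =>
    have hr' : r < (List.finRange (N + 1)).length := by rw [List.length_finRange]; omega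
    have e1 : (List.finRange (N + 1)).take (r + 1) =
        (List.finRange (N + 1)).take r ++ [(⟨r, by omega⟩ : Fin (N + 1))] := by
      rw [List.take_succ_eq_append_getElem hr']
      simp
    rw [e1, List.map_append, List.prod_append, map_mul, map_mul, ih (by omega)]
    simp only [List.map_cons, List.map_nil, List.prod_cons, List.prod_nil, mul_one]
    rw [H.1, vst_eq, ven_eq]
    group

theorem cyc_gauge {N : ℕ} {Q : Type} [Group Q] {γ : Fin N → ℕ → Q} {δ : Fin N → Q}
    {φ φ' : FreeGroup (Xg N) →* Q} (H : Gg γ δ φ φ') (i : Fin N) (r : ℕ) (hr : r ≤ N) :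
    φ' (cyc i r) = (gw γ δ i r)⁻¹ * φ (cyc i r) * gw γ δ i r := by
  unfold cyc
  rw [List.rotate_eq_drop_append_take (by rw [List.length_finRange]; omega), List.map_append,
    List.prod_append, map_mul, map_mul]
  have h1 := take_gauge H i r (by omega)
  have h2 := take_gauge H i (N + 1) le_rfl
  have e2 : (List.finRange (N + 1)).take (N + 1) = List.finRange (N + 1) :=
    List.take_of_length_le (by rw [List.length_finRange])
  rw [e2] at h2
  have e3 : ((List.finRange (N + 1)).map (eg i)).prod =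
      (((List.finRange (N + 1)).take r).map (eg i)).prod *
        (((List.finRange (N + 1)).drop r).map (eg i)).prod := by
    rw [← List.prod_append, ← List.map_append, List.take_append_drop]
  rw [e3, map_mul, map_mul, h1] at h2
  have e4 : gw γ δ i (N + 1) = δ i := by simp [gw]
  rw [e4] at h2
  have h3 : φ' ((((List.finRange (N + 1)).drop r).map (eg i)).prod) =
      (gw γ δ i r)⁻¹ * φ ((((List.finRange (N + 1)).drop r).map (eg i)).prod) * δ i := by
    have := congrArg (fun z => ((δ i)⁻¹ *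
      φ ((((List.finRange (N + 1)).take r).map (eg i)).prod) * gw γ δ i r)⁻¹ * z) h2
    simp only [inv_mul_cancel_left] at this
    rw [this]
    group
  rw [h3, h1]
  group

theorem twist_gauge {N : ℕ} {adj : Fin N → Fin N → Prop} {T : Fin N → MulAut (FreeGroup (Xg N))}
    (hT : Tw adj T) {Q : Type} [Group Q] {γ : Fin N → ℕ → Q} {δ : Fin N → Q}
    (hγ : ∀ i k : Fin N, adj i k → γ i k.1 = γ k i.1) {φ φ' : FreeGroup (Xg N) →* Q}
    (H : Gg γ δ φ φ') (i : Fin N) :
    Gg γ δ (φ.comp (T i).toMonoidHom) (φ'.comp (T i).toMonoidHom) := by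
  have hc : ∀ (ψ : FreeGroup (Xg N) →* Q) (x : FreeGroup (Xg N)),
      (ψ.comp (T i).toMonoidHom) x = ψ (T i x) := fun ψ x => rfl
  constructor
  · intro t j
    rw [hc, hc]
    by_cases h1 : adj i t ∧ i < t ∧ j = i.succ
    · obtain ⟨ha, hlt, rfl⟩ := h1
      rw [hT.out i t ha hlt, map_mul, map_mul, cyc_gauge H i (t.1 + 1) (by have := t.2; omega),
        H.1]
      have e1 : vst γ δ t i.succ = γ i t.1 := by
        unfold vst
        rw [if_neg (by simp), hγ i t ha]
        simp
      have e2 : gw γ δ i (t.1 + 1) = γ i t.1 := by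
        unfold gw
        have := t.2
        rw [if_neg (by omega), if_neg (by omega)]
        simp
      rw [e1, e2]
      group
    · by_cases h2 : adj i t ∧ t < i ∧ j = i.castSucc
      · obtain ⟨ha, hlt, rfl⟩ := h2
        rw [hT.inn i t ha hlt, map_mul, map_mul, map_inv, map_inv,
          cyc_gauge H i (t.1 + 1) (by have := t.2; omega), H.1]
        have e1 : ven γ δ t i.castSucc = γ i t.1 := by
          unfold ven
          have := i.2
          rw [if_neg (by simp; omega), hγ i t ha]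
          simp
        have e2 : gw γ δ i (t.1 + 1) = γ i t.1 := by
          unfold gw
          have := t.2
          rw [if_neg (by omega), if_neg (by omega)]
          simp
        rw [e1, e2]
        group
      · rw [hT.e_fix i t j h1 h2, H.1]
  · intro t
    rw [hc, hc]
    by_cases h : t = i
    · subst h
      rw [hT.hh, map_mul, map_mul, cyc_gauge H t 0 (by omega), H.2]
      have e : gw γ δ t 0 = δ t := by simp [gw]
      rw [e]
      group
    · rw [hT.h_fix i t h, H.2]

/-- The gauge transform exists. -/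
theorem ex_gauge {N : ℕ} {Q : Type} [Group Q] (γ : Fin N → ℕ → Q) (δ : Fin N → Q)
    (φ : FreeGroup (Xg N) →* Q) : ∃ φ', Gg γ δ φ φ' := by
  refine ⟨FreeGroup.lift (fun x => match x with
    | Sum.inl (i, j) => (vst γ δ i j)⁻¹ * φ (eg i j) * ven γ δ i j
    | Sum.inr i => (δ i)⁻¹ * φ (hg i)), ?_, ?_⟩
  · intro i j
    rw [eg, FreeGroup.lift_apply_of]
    rfl
  · intro i
    rw [hg, FreeGroup.lift_apply_of]
    rfl

theorem uniq_gauge {N : ℕ} {Q : Type} [Group Q] {γ : Fin N → ℕ → Q} {δ : Fin N → Q}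
    {φ φ1 φ2 : FreeGroup (Xg N) →* Q} (h1 : Gg γ δ φ φ1) (h2 : Gg γ δ φ φ2) : φ1 = φ2 := by
  apply FreeGroup.ext_hom
  rintro (⟨i, j⟩ | i)
  · have a := h1.1 i j
    have b := h2.1 i j
    rw [← b] at a
    exact a
  · have a := h1.2 i
    have b := h2.2 i
    rw [← b] at a
    exact a

theorem all_gauge {N : ℕ} {adj : Fin N → Fin N → Prop} {T : Fin N → MulAut (FreeGroup (Xg N))}
    (hT : Tw adj T) {Q : Type} [Group Q] {γ : Fin N → ℕ → Q} {δ : Fin N → Q}
    (hγ : ∀ i k : Fin N, adj i k → γ i k.1 = γ k i.1)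
    (a : MulAut (FreeGroup (Xg N))) (ha : a ∈ Subgroup.closure (Set.range T)) :
    ∀ φ φ' : FreeGroup (Xg N) →* Q, Gg γ δ φ φ' →
      Gg γ δ (φ.comp a.toMonoidHom) (φ'.comp a.toMonoidHom) := by
  induction ha using Subgroup.closure_induction with
  | mem x hx =>
    obtain ⟨i, rfl⟩ := hx
    intro φ φ' H
    exact twist_gauge hT hγ H i
  | one =>
    intro φ φ' H
    exact H
  | mul x y _ _ hx hy =>
    intro φ φ' H
    have := hy _ _ (hx _ _ H)
    exact this
  | inv x _ hx =>
    intro φ φ' H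
    obtain ⟨ψ, hψ⟩ := ex_gauge γ δ (φ.comp (x⁻¹).toMonoidHom)
    have h1 := hx _ _ hψ
    have e1 : (φ.comp (x⁻¹).toMonoidHom).comp x.toMonoidHom = φ := by
      ext y
      show φ (x⁻¹ (x _)) = φ _
      rw [MulAut.inv_apply_self]
    rw [e1] at h1
    have e2 := uniq_gauge h1 H
    have e3 : φ'.comp (x⁻¹).toMonoidHom = ψ := by
      rw [← e2]
      ext y
      show ψ (x (x⁻¹ _)) = ψ _
      rw [MulAut.apply_inv_self]
    rw [e3]
    exact hψ

end H9

/-- GAU. -/
theorem gau : GauStmt := by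
  intro N adj T _ _ hT Q _ φ φ' γ δ hγ h1 h2 a ha t
  have := H9.all_gauge hT hγ a ha φ φ' ⟨h1, h2⟩
  exact this.2 t

end Unf
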